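import Pool.Agent.Q220.Loop.Word

/-!
The bound for the spectral radius.
-/

set_option autoImplicit false

namespace Pool.Agent.Q220.Loop

open MeasureTheory Filter
open scoped ENNReal

variable {q k : ℕ}

theorem tg_len {l : List (Σ s : Ix q k, Mz q k s)} {v : List (Fin q)} (h : tg l = some v) :
    v.length = k := by
  cases l with
  | nil => simp [tg] at h
  | cons x l =>
    simp only [tg, Option.some.injEq] at h
    rw [← h]
    exact x.1.1.2

/-- the parent of a leaf, for a ball which was not entered there -/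
theorem parent_other (hq : 2 ≤ q) {t : Option (List (Fin q))} {u : List (Fin q)}
    (ht : ∀ l, t = some l → u.length = l.length) (hu : t ≠ some u) :
    fB t u.tail ≤ √q * fB t u := by
  have hq0 : (0 : ℝ) < q := by exact_mod_cast (show 0 < q by omega)
  have hq2 : (2 : ℝ) ≤ q := by exact_mod_cast hq
  have hs : 0 < √(q : ℝ) := Real.sqrt_pos.2 hq0
  have hs1 : 1 ≤ √(q : ℝ) := by
    rw [Real.one_le_sqrt]
    linarith
  set s := √(q : ℝ) with hsdef
  cases t with
  | none =>
    simp only [fB, mul_one]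
    rw [← hsdef]
    cases u with
    | nil => simpa using hs1
    | cons j u =>
      simp only [List.tail_cons, List.length_cons, pow_succ]
      apply le_of_eq
      field_simp
  | some l =>
    have h1 := ht l rfl
    have hns : ¬ u <:+ l := fun h => hu (by rw [h.eq_of_length h1])
    simp only [fB]
    rw [← hsdef]
    cases u with
    | nil => exact absurd List.nil_suffix hns
    | cons j u =>
      rw [cs_not hns]
      simp only [List.tail_cons, List.length_cons, pow_succ]
      apply le_of_eq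
      field_simp

/-- the parent of the leaf through which the ball was entered -/
theorem parent_entry (hq : 2 ≤ q) (u : List (Fin q)) :
    fB (some u) u.tail + (√q + (q - 1) * (√q)⁻¹) * fB (some u) u ≤
      (2 * √q + ((q : ℝ) ^ u.length)⁻¹) * fB (some u) u := by
  have hq0 : (0 : ℝ) < q := by exact_mod_cast (show 0 < q by omega)
  have hq2 : (2 : ℝ) ≤ q := by exact_mod_cast hq
  have hs : 0 < √(q : ℝ) := Real.sqrt_pos.2 hq0
  have hss : √(q : ℝ) * √(q : ℝ) = q := Real.mul_self_sqrt hq0.le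
  have hs1 : 1 ≤ √(q : ℝ) := by
    rw [Real.one_le_sqrt]
    linarith
  set s := √(q : ℝ) with hsdef
  have hinv : q * s⁻¹ = s := by
    rw [← hss]
    field_simp
  have hi0 : 0 < s⁻¹ := by positivity
  simp only [fB]
  rw [← hsdef]
  have hcu : cs u u = u.length := cs_suffix (List.suffix_refl u)
  rw [hcu]
  cases u with
  | nil =>
    simp only [List.tail_nil, List.length_nil, pow_zero, one_mul, cs, inv_one]
    have hZ := Zf_pos q 0
    have e1 : Zf q 0 + (s + (q - 1) * s⁻¹) * Zf q 0 =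
        (1 + s + (q * s⁻¹) - s⁻¹) * Zf q 0 := by ring
    rw [e1, hinv]
    apply mul_le_mul_of_nonneg_right _ hZ.le
    linarith
  | cons j u =>
    have hu' : u <:+ j :: u := List.suffix_cons j u
    rw [List.tail_cons, cs_suffix hu']
    simp only [List.length_cons, Zf]
    rw [← hsdef]
    set n := u.length
    have hQ : 0 < (q : ℝ) ^ n := by positivity
    have e1 : s⁻¹ ^ n * (1 + s * (q : ℝ) ^ n) +
        (s + (q - 1) * s⁻¹) * (s⁻¹ ^ (n + 1) * (1 + s * (q : ℝ) ^ (n + 1))) =
        s⁻¹ ^ (n + 1) * (s + s * s * (q : ℝ) ^ n +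
          (s + q * s⁻¹ - s⁻¹) * (1 + s * q * (q : ℝ) ^ n)) := by
      rw [pow_succ s⁻¹ n]
      have e3 : s⁻¹ ^ n * (1 + s * (q : ℝ) ^ n) =
          s⁻¹ ^ n * s⁻¹ * (s + s * s * (q : ℝ) ^ n) := by
        have : s⁻¹ * s = 1 := inv_mul_cancel₀ hs.ne'
        linear_combination (-(s⁻¹ ^ n) * (1 + s * (q : ℝ) ^ n)) * this
      rw [e3]
      ring
    have e2 : (2 * s + ((q : ℝ) ^ (n + 1))⁻¹) * (s⁻¹ ^ (n + 1) * (1 + s * (q : ℝ) ^ (n + 1))) =
        s⁻¹ ^ (n + 1) * (2 * s * (1 + s * q * (q : ℝ) ^ n) + ((q : ℝ) ^ (n + 1))⁻¹ *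
          (1 + s * (q : ℝ) ^ (n + 1))) := by ring
    rw [e1, e2, hinv, hss]
    apply mul_le_mul_of_nonneg_left _ (by positivity)
    have e4 : ((q : ℝ) ^ (n + 1))⁻¹ * (1 + s * (q : ℝ) ^ (n + 1)) =
        ((q : ℝ) ^ (n + 1))⁻¹ + s := by
      have : ((q : ℝ) ^ (n + 1))⁻¹ * (q : ℝ) ^ (n + 1) = 1 := inv_mul_cancel₀ (by positivity)
      linear_combination s * this
    rw [e4]
    have e5 : (s + s - s⁻¹) * (1 + s * q * (q : ℝ) ^ n) =
        2 * s * (1 + s * q * (q : ℝ) ^ n) - s⁻¹ - q * (q : ℝ) ^ n := by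
      have : s⁻¹ * s = 1 := inv_mul_cancel₀ hs.ne'
      linear_combination (-(q * (q : ℝ) ^ n)) * this
    rw [e5]
    have : 0 < ((q : ℝ) ^ (n + 1))⁻¹ := by positivity
    linarith

open Classical in
theorem fV_gen (hq : 2 ≤ q) {g : Gp q k} {u : Bl q k} (h : ¬ u.1.length < k) (i : Fin q) :
    fV (gen (lf u h i) * g, u) =
      (if (wd g).head?.map Sigma.fst = some (lf u h i) then √q else (√q)⁻¹) * fV (g, u) := by
  have hq0 : 0 < q := by omega
  have hs : 0 < √(q : ℝ) := Real.sqrt_pos.2 (by exact_mod_cast hq0)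
  have hb : 0 < fB (some u.1) u.1 := fB_pos hq0 _ _
  have key : ∀ l : List (Σ s : Ix q k, Mz q k s),
      Kf (⟨lf u h i, tw⟩ :: l) * fB (tg (⟨lf u h i, tw⟩ :: l)) u.1 =
        (√q)⁻¹ * (Kf l * fB (tg l) u.1) := by
    intro l
    show Kf l * fB (tg l) u.1 / (√q * fB (some u.1) u.1) * fB (some u.1) u.1 = _
    field_simp
  rcases wd_gen (lf u h i) g with ⟨h1, h2⟩ | h1
  · rw [if_neg h2]
    show Kf (wd (gen (lf u h i) * g)) * fB (tg (wd (gen (lf u h i) * g))) u.1 = _
    rw [h1, key]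
    rfl
  · have h2 : (wd g).head?.map Sigma.fst = some (lf u h i) := by rw [h1]; rfl
    rw [if_pos h2]
    show Kf (wd (gen (lf u h i) * g)) * fB (tg (wd (gen (lf u h i) * g))) u.1 =
      √q * (Kf (wd g) * fB (tg (wd g)) u.1)
    have h3 : Kf (wd g) * fB (tg (wd g)) u.1 =
        (√q)⁻¹ * (Kf (wd (gen (lf u h i) * g)) * fB (tg (wd (gen (lf u h i) * g))) u.1) := by
      rw [← key, ← h1]
    rw [h3, ← mul_assoc, mul_inv_cancel₀ hs.ne', one_mul]

/-- `f` is a supersolution -/
theorem super (hq : 2 ≤ q) (x : Vt q k) :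
    ∑ e, fV (nbr x e) ≤ (2 * √q + ((q : ℝ) ^ k)⁻¹) * fV x := by
  classical
  obtain ⟨g, u⟩ := x
  have hq0 : 0 < q := by omega
  have hqr : (0 : ℝ) < q := by exact_mod_cast hq0
  have hs : 0 < √(q : ℝ) := Real.sqrt_pos.2 hqr
  have hss : √(q : ℝ) * √(q : ℝ) = q := Real.mul_self_sqrt hqr.le
  have hK := Kf_pos hq0 (wd g)
  have hinv : q * (√(q : ℝ))⁻¹ = √q := by
    have : √(q : ℝ) * (√(q : ℝ))⁻¹ = 1 := mul_inv_cancel₀ hs.ne'
    linear_combination √(q : ℝ) * this - (√(q : ℝ))⁻¹ * hss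
  rw [Fintype.sum_option]
  have hnone : fV (nbr (g, u) none) = Kf (wd g) * fB (tg (wd g)) u.1.tail := rfl
  rw [hnone]
  have hfx : fV (g, u) = Kf (wd g) * fB (tg (wd g)) u.1 := rfl
  by_cases h : u.1.length < k
  · have h1 : ∀ i, fV (nbr (g, u) (some i)) = Kf (wd g) * fB (tg (wd g)) (i :: u.1) := by
      intro i
      rw [nbr_lt h]
      rfl
    simp_rw [h1]
    rw [← Finset.mul_sum, ← mul_add, hfx]
    have h2 := interior hq (t := tg (wd g)) (u := u.1) (fun l hl => by rw [tg_len hl]; exact h)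
    have hb := fB_pos hq0 (tg (wd g)) u.1
    have h3 : 0 < ((q : ℝ) ^ k)⁻¹ := by positivity
    calc Kf (wd g) * (fB (tg (wd g)) u.1.tail + ∑ i, fB (tg (wd g)) (i :: u.1))
        ≤ Kf (wd g) * (2 * √q * fB (tg (wd g)) u.1) := mul_le_mul_of_nonneg_left h2 hK.le
      _ ≤ (2 * √q + ((q : ℝ) ^ k)⁻¹) * (Kf (wd g) * fB (tg (wd g)) u.1) := by
          have : 0 < ((q : ℝ) ^ k)⁻¹ * (Kf (wd g) * fB (tg (wd g)) u.1) := by positivity
          linarith
  · have huk : u.1.length = k := le_antisymm u.2 (not_lt.1 h)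
    have h1 : ∀ i, fV (nbr (g, u) (some i)) =
        (if (wd g).head?.map Sigma.fst = some (lf u h i) then √q else (√q)⁻¹) * fV (g, u) := by
      intro i
      rw [nbr_ge h]
      exact fV_gen hq h i
    simp_rw [h1]
    rw [← Finset.sum_mul]
    by_cases ht : tg (wd g) = some u.1
    · obtain ⟨i0, hi0⟩ : ∃ i0, (wd g).head?.map Sigma.fst = some (lf u h i0) := by
        cases hw : wd g with
        | nil => rw [hw] at ht; simp [tg] at ht
        | cons x l =>
          rw [hw] at ht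
          simp only [tg, Option.some.injEq] at ht
          refine ⟨x.1.2, ?_⟩
          simp only [List.head?_cons, Option.map_some, Option.some.injEq]
          exact Prod.ext (Subtype.ext ht) rfl
      have h2 : ∀ i, (if (wd g).head?.map Sigma.fst = some (lf u h i) then √(q : ℝ)
          else (√(q : ℝ))⁻¹) = (√(q : ℝ))⁻¹ + if i = i0 then √(q : ℝ) - (√(q : ℝ))⁻¹ else 0 := by
        intro i
        rw [hi0]
        by_cases hii : i = i0
        · rw [hii, if_pos rfl, if_pos rfl]
          ring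
        · rw [if_neg hii, if_neg, add_zero]
          intro hh
          rw [Option.some.injEq, lf, lf, Prod.mk.injEq] at hh
          exact hii hh.2.symm
      simp_rw [h2]
      rw [Finset.sum_add_distrib, Finset.sum_ite_eq' Finset.univ i0, Finset.sum_const,
        Finset.card_univ, Fintype.card_fin, if_pos (Finset.mem_univ _), nsmul_eq_mul, hfx, ht]
      have h3 := parent_entry hq u.1
      rw [huk] at h3
      have h4 := mul_le_mul_of_nonneg_left h3 hK.le
      linarith
    · have h2 : ∀ i, (if (wd g).head?.map Sigma.fst = some (lf u h i) then √(q : ℝ)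
          else (√(q : ℝ))⁻¹) = (√(q : ℝ))⁻¹ := by
        intro i
        rw [if_neg]
        intro hh
        apply ht
        cases hw : wd g with
        | nil => rw [hw] at hh; simp at hh
        | cons x l =>
          rw [hw] at hh
          simp only [List.head?_cons, Option.map_some, Option.some.injEq] at hh
          simp only [tg, hh]
          rfl
      simp_rw [h2]
      rw [Finset.sum_const, Finset.card_univ, Fintype.card_fin, nsmul_eq_mul, hinv, hfx]
      have h3 := parent_other hq (t := tg (wd g)) (u := u.1)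
        (fun l hl => by rw [huk, tg_len hl]) ht
      have h4 := mul_le_mul_of_nonneg_left h3 hK.le
      have hb := fB_pos hq0 (tg (wd g)) u.1
      have : 0 < ((q : ℝ) ^ k)⁻¹ * (Kf (wd g) * fB (tg (wd g)) u.1) := by positivity
      linarith

/-! ### powers -/

theorem step_super {V : Type} {d : ℕ} {a : V → V → ℕ} {f : V → ℝ≥0∞} {c : ℝ≥0∞}
    (h : ∀ x, ∑' y, (a x y : ℝ≥0∞) / d * f y ≤ c * f x) (n : ℕ) :
    ∀ x y, stepP d a n x y * f y ≤ c ^ n * f x := by
  induction n with
  | zero =>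
    intro x y
    unfold stepP
    split_ifs with hxy
    · rw [hxy, pow_zero]
    · simp
  | succ n ih =>
    intro x y
    show (∑' z, (a x z : ℝ≥0∞) / d * stepP d a n z y) * f y ≤ _
    rw [← ENNReal.tsum_mul_right]
    calc ∑' z, (a x z : ℝ≥0∞) / d * stepP d a n z y * f y
        ≤ ∑' z, c ^ n * ((a x z : ℝ≥0∞) / d * f z) := by
          refine ENNReal.tsum_le_tsum fun z => ?_
          rw [mul_assoc]
          calc (a x z : ℝ≥0∞) / d * (stepP d a n z y * f y)
              ≤ (a x z : ℝ≥0∞) / d * (c ^ n * f z) := mul_le_mul' le_rfl (ih z y)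
            _ = c ^ n * ((a x z : ℝ≥0∞) / d * f z) := by ring
      _ = c ^ n * ∑' z, (a x z : ℝ≥0∞) / d * f z := ENNReal.tsum_mul_left
      _ ≤ c ^ n * (c * f x) := by gcongr; exact h x
      _ = c ^ (n + 1) * f x := by rw [pow_succ]; ring

theorem spec_le {V : Type} {d : ℕ} {a : V → V → ℕ} {f : V → ℝ≥0∞} {c : ℝ≥0∞}
    (h : ∀ x, ∑' y, (a x y : ℝ≥0∞) / d * f y ≤ c * f x) (h0 : ∀ x, f x ≠ 0) (h1 : ∀ x, f x ≠ ∞)
    (x : V) : spec d a x ≤ c := by
  unfold spec
  refine limsup_le_of_le (h := ?_)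
  filter_upwards [eventually_ge_atTop 1] with n hn
  have h2 := step_super h (2 * n) x x
  have h3 : stepP d a (2 * n) x x ≤ c ^ (2 * n) := by
    rwa [ENNReal.mul_le_mul_iff_left (h0 x) (h1 x)] at h2
  calc stepP d a (2 * n) x x ^ (1 / (2 * n : ℝ)) ≤ (c ^ (2 * n)) ^ (1 / (2 * n : ℝ)) :=
        ENNReal.rpow_le_rpow h3 (by positivity)
    _ = c := by
        have hn' : (n : ℝ) ≠ 0 := by exact_mod_cast (show n ≠ 0 by omega)
        rw [← ENNReal.rpow_natCast, ← ENNReal.rpow_mul]
        push_cast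
        rw [mul_one_div_cancel (by positivity), ENNReal.rpow_one]

/-- the spectral radius of the tree of balls -/
theorem spec_am (hq : 2 ≤ q) (x : Vt q k) :
    spec (q + 1) (am (q := q) (k := k)) x ≤
      ENNReal.ofReal ((2 * √q + ((q : ℝ) ^ k)⁻¹) / (q + 1)) := by
  have hq0 : 0 < q := by omega
  have hqr : (0 : ℝ) < q := by exact_mod_cast hq0
  refine spec_le (f := fun x => ENNReal.ofReal (fV x)) (fun x => ?_) (fun x => ?_) (fun x => ?_) x
  · have h1 : ∀ y, (am x y : ℝ≥0∞) / ((q + 1 : ℕ) : ℝ≥0∞) * ENNReal.ofReal (fV y) =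
        (am x y : ℝ≥0∞) * (ENNReal.ofReal (fV y) / ((q + 1 : ℕ) : ℝ≥0∞)) := by
      intro y
      rw [ENNReal.div_eq_inv_mul, ENNReal.div_eq_inv_mul]
      ring
    simp_rw [h1]
    rw [tsum_am x (fun y => ENNReal.ofReal (fV y) / ((q + 1 : ℕ) : ℝ≥0∞))]
    have h2 : ∀ y : Vt q k, ENNReal.ofReal (fV y) / ((q + 1 : ℕ) : ℝ≥0∞) =
        ENNReal.ofReal (fV y / (q + 1)) := by
      intro y
      rw [ENNReal.ofReal_div_of_pos (by positivity)]
      congr 1
      rw [← ENNReal.ofReal_natCast]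
      push_cast
      rfl
    simp_rw [h2]
    rw [← ENNReal.ofReal_sum_of_nonneg (fun e _ => by
      have := fV_pos hq0 (nbr x e); positivity), ← ENNReal.ofReal_mul (by positivity)]
    apply ENNReal.ofReal_le_ofReal
    rw [← Finset.sum_div, div_mul_eq_mul_div]
    exact div_le_div_of_nonneg_right (super hq x) (by positivity)
  · rw [Ne, ENNReal.ofReal_eq_zero, not_le]
    exact fV_pos hq0 x
  · exact ENNReal.ofReal_ne_top

end Pool.Agent.Q220.Loop
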