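import Mathlib

/-!
Unimodular random rooted multigraphs and their spectral radius.

A multigraph on the countable vertex set `V` is given by its multiplicities `a x y ∈ {0, 1, 2, ...}`;
`a x x` is the number of loops at `x`.
-/

set_option autoImplicit false

namespace Pool.Agent.Q220.Loop

open MeasureTheory Filter
open scoped ENNReal

/-- connected `d`-regular multigraphs -/
structure IsRegular (d : ℕ) {V : Type} (a : V → V → ℕ) : Prop where
  symm : ∀ x y, a x y = a y x
  degree : ∀ x, ∑' y, (a x y : ℝ≥0∞) = d
  connected : ∀ x y, Relation.ReflTransGen (fun x y => 0 < a x y) x y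

open Classical in
/-- the `n`-step transition probabilities of the walk which moves from `x` to `y` with probability
`a x y / d` -/
noncomputable def stepP (d : ℕ) {V : Type} (a : V → V → ℕ) : ℕ → V → V → ℝ≥0∞
  | 0, x, y => if x = y then 1 else 0
  | n + 1, x, y => ∑' z, (a x z : ℝ≥0∞) / d * stepP d a n z y

/-- the spectral radius, computed at the vertex `x` -/
noncomputable def spec (d : ℕ) {V : Type} (a : V → V → ℕ) (x : V) : ℝ≥0∞ :=
  limsup (fun n : ℕ => stepP d a (2 * n) x x ^ (1 / (2 * n : ℝ))) atTop

/-- the random rooted multigraph `(a, o)` is unimodular: it satisfies the mass transport principle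
for all nonnegative measurable functions of doubly rooted multigraphs which are invariant under
isomorphisms -/
structure IsUnimodular {V Ω : Type} [MeasurableSpace Ω] (P : Measure Ω) (a : Ω → V → V → ℕ)
    (o : Ω → V) : Prop where
  meas_graph : Measurable a
  meas_root : ∀ x, MeasurableSet {ω | o ω = x}
  mass : ∀ f : (V → V → ℕ) → V → V → ℝ≥0∞, (∀ x y, Measurable fun b => f b x y) →
    (∀ (σ : Equiv.Perm V) (b : V → V → ℕ) (x y : V),
      f (fun x y => b (σ.symm x) (σ.symm y)) (σ x) (σ y) = f b x y) →
    ∫⁻ ω, ∑' x, f (a ω) (o ω) x ∂P = ∫⁻ ω, ∑' x, f (a ω) x (o ω) ∂P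

end Pool.Agent.Q220.Loop
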