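import Pool.Agent.Q220.Loop.Bound

/-!
The random root and the density of loops.
-/

set_option autoImplicit false

namespace Pool.Agent.Q220.Loop

open MeasureTheory Filter
open scoped ENNReal

variable {q k : ℕ}

instance : Finite (Bl q k) := by
  have h := List.finite_length_le (Fin q) k
  exact h.to_subtype

noncomputable instance : Fintype (Bl q k) := Fintype.ofFinite _

instance : Nonempty (Bl q k) := ⟨⟨[], Nat.zero_le _⟩⟩

instance : MeasurableSpace (Bl q k) := ⊤

instance : DiscreteMeasurableSpace (Bl q k) := ⟨fun _ => trivial⟩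

instance : Countable (Gp q k) := by
  refine Function.Injective.countable (f := fun g : Gp q k => wd g) ?_
  intro g h hgh
  exact Monoid.CoprodI.Word.equiv.injective (Monoid.CoprodI.Word.ext hgh)

instance : Countable (Vt q k) := inferInstance

theorem long_words (hq : 2 ≤ q) (n : ℕ) : ∃ g : Gp q k, n ≤ (wd g).length := by
  induction n with
  | zero => exact ⟨1, Nat.zero_le _⟩
  | succ n ih =>
    obtain ⟨g, hg⟩ := ih
    let l : {l : List (Fin q) // l.length = k} := ⟨List.replicate k ⟨0, by omega⟩, by simp⟩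
    let s0 : Ix q k := (l, ⟨0, by omega⟩)
    let s1 : Ix q k := (l, ⟨1, by omega⟩)
    have hne : s0 ≠ s1 := by
      intro h
      have := congrArg (fun s : Ix q k => s.2.val) h
      simp [s0, s1] at this
    have key : ∀ s : Ix q k, (wd g).head?.map Sigma.fst ≠ some s → n + 1 ≤ (wd (gen s * g)).length := by
      intro s hs
      rcases wd_gen s g with ⟨h1, _⟩ | h1
      · rw [h1, List.length_cons]
        omega
      · exfalso
        apply hs
        rw [h1]
        rfl
    by_cases h0 : (wd g).head?.map Sigma.fst = some s0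
    · refine ⟨gen s1 * g, key s1 ?_⟩
      rw [h0]
      intro h
      exact hne (Option.some.inj h)
    · exact ⟨gen s0 * g, key s0 h0⟩

theorem infinite_Vt (hq : 2 ≤ q) : Infinite (Vt q k) := by
  have : Infinite (Gp q k) := by
    by_contra hcon
    rw [not_infinite_iff_finite] at hcon
    obtain ⟨M, hM⟩ := (Set.finite_range fun g : Gp q k => (wd g).length).bddAbove
    obtain ⟨g, hg⟩ := long_words (q := q) (k := k) hq (M + 1)
    have := hM ⟨g, rfl⟩
    simp only at this
    omega
  infer_instance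

/-- the uniform law on the ball -/
noncomputable def unif (q k : ℕ) : Measure (Bl q k) := (PMF.uniformOfFintype (Bl q k)).toMeasure

instance : IsProbabilityMeasure (unif q k) := by unfold unif; infer_instance

theorem lint_unif (F : Bl q k → ℝ≥0∞) :
    ∫⁻ u, F u ∂(unif q k) = (Fintype.card (Bl q k) : ℝ≥0∞)⁻¹ * ∑' u, F u := by
  unfold unif
  rw [lintegral_fintype, tsum_fintype, Finset.mul_sum]
  refine Finset.sum_congr rfl fun u _ => ?_
  rw [PMF.toMeasure_apply_singleton _ _ (MeasurableSet.singleton u),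
    PMF.uniformOfFintype_apply, mul_comm]

theorem unimodular : IsUnimodular (unif q k) (fun _ => am (q := q) (k := k))
    (fun u => ((1 : Gp q k), u)) where
  meas_graph := measurable_const
  meas_root := fun x => MeasurableSet.of_discrete
  mass := by
    intro f _ hf
    rw [lint_unif, lint_unif]
    congr 1
    refine transport (fun x y => f (am (q := q) (k := k)) x y) ?_
    intro h x y
    have h1 := hf (rt h) (am (q := q) (k := k)) x y
    rw [← h1]
    congr 1
    funext x y
    have := am_rt h ((rt h).symm x) ((rt h).symm y)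
    rw [Equiv.apply_symm_apply, Equiv.apply_symm_apply] at this
    exact this

theorem card_Bl (hq : 2 ≤ q) : ∀ k, Nat.card (Bl q k) ≤ 2 * q ^ k := by
  intro k
  have h1 : ∀ k, ({u : List (Fin q) | u.length ≤ k}).ncard ≤ 2 * q ^ k := by
    intro k
    induction k with
    | zero =>
      have : {u : List (Fin q) | u.length ≤ 0} = {[]} := by
        ext u
        simp
      rw [this, Set.ncard_singleton]
      norm_num
    | succ k ih =>
      have e : {u : List (Fin q) | u.length ≤ k + 1} =
          {u : List (Fin q) | u.length ≤ k} ∪ {u : List (Fin q) | u.length = k + 1} := by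
        ext u
        simp only [Set.mem_ofPred_eq, Set.mem_union]
        omega
      have e2 : {u : List (Fin q) | u.length = k + 1}.ncard = q ^ (k + 1) := by
        have := card_vector (α := Fin q) (k + 1)
        rw [Fintype.card_fin] at this
        rw [← this, ← Nat.card_eq_fintype_card]
        rfl
      rw [e]
      refine (Set.ncard_union_le _ _).trans ?_
      rw [e2, pow_succ]
      nlinarith [Nat.pos_of_ne_zero (show q ^ k ≠ 0 from pow_ne_zero _ (by omega))]
  exact h1 k

theorem loops : {u : Bl q k | 1 ≤ am ((1 : Gp q k), u) (1, u)} ⊇ {⟨[], Nat.zero_le _⟩} := by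
  intro u hu
  rw [Set.mem_singleton_iff] at hu
  subst hu
  exact am_pos (x := ((1 : Gp q k), (⟨[], Nat.zero_le _⟩ : Bl q k))) none

theorem density (hq : 2 ≤ q) {r : ℝ} (hr : 2 * (q : ℝ) ^ k * r ≤ 1 ∨ k = 0 ∧ r ≤ 1) (hr0 : 0 < r) :
    r ≤ (unif q k).real {u : Bl q k | 1 ≤ am ((1 : Gp q k), u) (1, u)} := by
  refine le_trans ?_ (measureReal_mono loops (measure_ne_top _ _))
  have h1 : (unif q k).real {(⟨[], Nat.zero_le _⟩ : Bl q k)} = 1 / (Nat.card (Bl q k) : ℝ) := by
    unfold unif
    rw [Measure.real, PMF.toMeasure_apply_singleton _ _ (MeasurableSet.singleton _),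
      PMF.uniformOfFintype_apply, ENNReal.toReal_inv, ENNReal.toReal_natCast,
      Nat.card_eq_fintype_card, one_div]
  rw [h1]
  have hpos : (0 : ℝ) < Nat.card (Bl q k) := by
    exact_mod_cast Nat.card_pos
  rw [le_div_iff₀ hpos]
  rcases hr with hr | ⟨rfl, hr⟩
  · have h2 : (Nat.card (Bl q k) : ℝ) ≤ 2 * (q : ℝ) ^ k := by exact_mod_cast card_Bl hq k
    nlinarith
  · have h2 : Nat.card (Bl q 0) = 1 := by
      rw [Nat.card_eq_one_iff_unique]
      refine ⟨⟨fun a b => ?_⟩, ⟨⟨[], Nat.zero_le _⟩⟩⟩
      obtain ⟨a, ha⟩ := a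
      obtain ⟨b, hb⟩ := b
      rw [Nat.le_zero, List.length_eq_zero_iff] at ha hb
      subst ha hb
      rfl
    rw [h2]
    simpa using hr

theorem choose_k (hq : 2 ≤ q) {r : ℝ} (hr0 : 0 < r) (hr1 : r ≤ 1) :
    ∃ k : ℕ, (2 * (q : ℝ) ^ k * r ≤ 1 ∨ k = 0 ∧ r ≤ 1) ∧ ((q : ℝ) ^ k)⁻¹ ≤ 2 * q * r := by
  have hqr : (2 : ℝ) ≤ q := by exact_mod_cast hq
  have hex : ∃ k : ℕ, 1 ≤ 2 * (q : ℝ) ^ (k + 1) * r := by
    obtain ⟨n, hn⟩ := pow_unbounded_of_one_lt (1 / r) (show (1 : ℝ) < q by linarith)
    refine ⟨n, ?_⟩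
    rw [div_lt_iff₀ hr0] at hn
    have : (q : ℝ) ^ n ≤ q ^ (n + 1) := pow_le_pow_right₀ (by linarith) (by omega)
    nlinarith
  classical
  set k := Nat.find hex with hk
  have h1 : 1 ≤ 2 * (q : ℝ) ^ (k + 1) * r := Nat.find_spec hex
  refine ⟨k, ?_, ?_⟩
  · rcases Nat.eq_zero_or_pos k with h0 | h0
    · exact Or.inr ⟨h0, hr1⟩
    · left
      have h2 := Nat.find_min hex (m := k - 1) (by omega)
      rw [not_le, show k - 1 + 1 = k by omega] at h2
      exact h2.le
  · have hp : (0 : ℝ) < (q : ℝ) ^ k := by positivity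
    rw [inv_le_iff_one_le_mul₀ hp]
    rw [pow_succ] at h1
    linarith

end Pool.Agent.Q220.Loop
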