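import Pool.Agent.Q220.Loop.Defs

/-!
A tree of balls with loops at the centres of the balls.
-/

set_option autoImplicit false

namespace Pool.Agent.Q220.Loop

open MeasureTheory Filter
open scoped ENNReal

/-- vertices of a ball; the head of the list is the last step, `[]` is the centre -/
abbrev Bl (q k : ℕ) : Type := {u : List (Fin q) // u.length ≤ k}

/-- letters: a leaf of the ball and a number -/
abbrev Ix (q k : ℕ) : Type := {l : List (Fin q) // l.length = k} × Fin q

abbrev Mz (q k : ℕ) : Ix q k → Type := fun _ => Multiplicative (ZMod 2)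

/-- free product of groups of order two -/
abbrev Gp (q k : ℕ) : Type := Monoid.CoprodI (Mz q k)

abbrev Vt (q k : ℕ) : Type := Gp q k × Bl q k

/-- the nontrivial element of the group of order two -/
def tw : Multiplicative (ZMod 2) := Multiplicative.ofAdd 1

theorem tw_mul : tw * tw = 1 := by decide

theorem tw_ne : tw ≠ 1 := by decide

theorem eq_tw {m : Multiplicative (ZMod 2)} (h : m ≠ 1) : m = tw := by
  revert m
  decide

variable {q k : ℕ}

/-- generators -/
def gen (s : Ix q k) : Gp q k := Monoid.CoprodI.of (M := Mz q k) (i := s) tw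

theorem gen_mul (s : Ix q k) : gen s * gen s = 1 := by
  unfold gen
  rw [← map_mul, tw_mul, map_one]

/-- the leaf `u` with the number `i` -/
def lf (u : Bl q k) (h : ¬ u.1.length < k) (i : Fin q) : Ix q k :=
  (⟨u.1, le_antisymm u.2 (not_lt.1 h)⟩, i)

/-- neighbours -/
def nbr (x : Vt q k) : Option (Fin q) → Vt q k
  | none => (x.1, ⟨x.2.1.tail, by rw [List.length_tail]; have := x.2.2; omega⟩)
  | some i => if h : x.2.1.length < k then (x.1, ⟨i :: x.2.1, by rw [List.length_cons]; omega⟩)
      else (gen (lf x.2 h i) * x.1, x.2)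

theorem nbr_lt {g : Gp q k} {u : Bl q k} (h : u.1.length < k) (i : Fin q) :
    nbr (g, u) (some i) = (g, ⟨i :: u.1, by rw [List.length_cons]; omega⟩) := dif_pos h

theorem nbr_ge {g : Gp q k} {u : Bl q k} (h : ¬ u.1.length < k) (i : Fin q) :
    nbr (g, u) (some i) = (gen (lf u h i) * g, u) := dif_neg h

/-- the reversed dart -/
def rv (x : Vt q k) : Option (Fin q) → Option (Fin q)
  | none => x.2.1.head?
  | some i => if x.2.1.length < k then none else some i

theorem nbr_rv (x : Vt q k) (e : Option (Fin q)) : nbr (nbr x e) (rv x e) = x := by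
  obtain ⟨g, ⟨u, hu⟩⟩ := x
  cases e with
  | none =>
    cases u with
    | nil => rfl
    | cons i u =>
      rw [List.length_cons] at hu
      exact nbr_lt (u := ⟨u, by omega⟩) (show u.length < k by omega) i
  | some i =>
    by_cases h : u.length < k
    · have h1 : nbr (g, (⟨u, hu⟩ : Bl q k)) (some i) =
          (g, ⟨i :: u, by rw [List.length_cons]; omega⟩) := nbr_lt h i
      have h2 : rv (g, (⟨u, hu⟩ : Bl q k)) (some i) = none := if_pos h
      rw [h1, h2]
      rfl
    · have h1 : nbr (g, (⟨u, hu⟩ : Bl q k)) (some i) = (gen (lf ⟨u, hu⟩ h i) * g, ⟨u, hu⟩) :=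
        nbr_ge h i
      have h2 : rv (g, (⟨u, hu⟩ : Bl q k)) (some i) = some i := if_neg h
      have h3 : nbr (gen (lf ⟨u, hu⟩ h i) * g, (⟨u, hu⟩ : Bl q k)) (some i) =
          (gen (lf ⟨u, hu⟩ h i) * (gen (lf ⟨u, hu⟩ h i) * g), ⟨u, hu⟩) := nbr_ge h i
      rw [h1, h2, h3, ← mul_assoc, gen_mul, one_mul]

theorem rv_rv (x : Vt q k) (e : Option (Fin q)) : rv (nbr x e) (rv x e) = e := by
  obtain ⟨g, ⟨u, hu⟩⟩ := x
  cases e with
  | none =>
    cases u with
    | nil => rfl
    | cons i u =>
      rw [List.length_cons] at hu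
      show rv (g, (⟨u, _⟩ : Bl q k)) (some i) = _
      exact if_pos (show u.length < k by omega)
  | some i =>
    by_cases h : u.length < k
    · have h1 : nbr (g, (⟨u, hu⟩ : Bl q k)) (some i) =
          (g, ⟨i :: u, by rw [List.length_cons]; omega⟩) := nbr_lt h i
      have h2 : rv (g, (⟨u, hu⟩ : Bl q k)) (some i) = none := if_pos h
      rw [h1, h2]
      rfl
    · have h1 : nbr (g, (⟨u, hu⟩ : Bl q k)) (some i) = (gen (lf ⟨u, hu⟩ h i) * g, ⟨u, hu⟩) :=
        nbr_ge h i
      have h2 : rv (g, (⟨u, hu⟩ : Bl q k)) (some i) = some i := if_neg h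
      rw [h1, h2]
      exact if_neg h

open Classical in
/-- multiplicities -/
noncomputable def am (x y : Vt q k) : ℕ := (Finset.univ.filter fun e => nbr x e = y).card

theorem am_symm (x y : Vt q k) : am x y = am y x := by
  classical
  unfold am
  refine Finset.card_nbij' (rv x) (rv y) ?_ ?_ ?_ ?_
  · intro e he
    simp only [Finset.coe_filter, Finset.mem_univ, true_and, Set.mem_ofPred_eq] at he ⊢
    rw [← he, nbr_rv]
  · intro e he
    simp only [Finset.coe_filter, Finset.mem_univ, true_and, Set.mem_ofPred_eq] at he ⊢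
    rw [← he, nbr_rv]
  · intro e he
    simp only [Finset.coe_filter, Finset.mem_univ, true_and, Set.mem_ofPred_eq] at he
    rw [← he, rv_rv]
  · intro e he
    simp only [Finset.coe_filter, Finset.mem_univ, true_and, Set.mem_ofPred_eq] at he
    rw [← he, rv_rv]

theorem tsum_am (x : Vt q k) (F : Vt q k → ℝ≥0∞) :
    ∑' y, (am x y : ℝ≥0∞) * F y = ∑ e, F (nbr x e) := by
  classical
  have h1 : ∀ y, (am x y : ℝ≥0∞) * F y = ∑' e : Option (Fin q), if nbr x e = y then F y else 0 := by
    intro y
    rw [tsum_fintype, ← Finset.sum_filter, Finset.sum_const, nsmul_eq_mul]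
    rfl
  simp_rw [h1]
  rw [ENNReal.tsum_comm, tsum_fintype]
  refine Finset.sum_congr rfl fun e _ => ?_
  rw [tsum_eq_single (nbr x e)]
  · rw [if_pos rfl]
  · intro y hy
    rw [if_neg (Ne.symm hy)]

theorem am_pos {x : Vt q k} (e : Option (Fin q)) : 0 < am x (nbr x e) := by
  classical
  unfold am
  exact Finset.card_pos.2 ⟨e, by simp⟩

theorem am_degree (x : Vt q k) : ∑' y, (am x y : ℝ≥0∞) = ((q + 1 : ℕ) : ℝ≥0∞) := by
  have h := tsum_am x (fun _ => 1)
  simp only [mul_one] at h
  rw [h]
  simp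

/-! ### connectedness -/

/-- reachability -/
def Rc (x y : Vt q k) : Prop := Relation.ReflTransGen (fun x y => 0 < am x y) x y

theorem Rc.symm {x y : Vt q k} (h : Rc x y) : Rc y x := by
  induction h with
  | refl => exact Relation.ReflTransGen.refl
  | tail _ hs ih => exact Relation.ReflTransGen.head (by rw [am_symm]; exact hs) ih

theorem rc_nbr (x : Vt q k) (e : Option (Fin q)) : Rc x (nbr x e) :=
  Relation.ReflTransGen.single (am_pos e)

theorem rc_root (g : Gp q k) : ∀ (u : List (Fin q)) (hu : u.length ≤ k),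
    Rc (g, (⟨u, hu⟩ : Bl q k)) (g, ⟨[], Nat.zero_le _⟩) := by
  intro u
  induction u with
  | nil => intro _; exact Relation.ReflTransGen.refl
  | cons i u ih =>
    intro hu
    rw [List.length_cons] at hu
    have h1 : nbr (g, (⟨i :: u, by rw [List.length_cons]; omega⟩ : Bl q k)) none =
      (g, ⟨u, by omega⟩) := rfl
    have h2 := rc_nbr (g, (⟨i :: u, by rw [List.length_cons]; omega⟩ : Bl q k)) none
    rw [h1] at h2
    exact h2.trans (ih _)

theorem rc_gen (s : Ix q k) (g : Gp q k) :
    Rc (g, (⟨[], Nat.zero_le _⟩ : Bl q k)) (gen s * g, ⟨[], Nat.zero_le _⟩) := by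
  obtain ⟨⟨l, hl⟩, i⟩ := s
  have h1 := (rc_root g l hl.le).symm
  have hn : ¬ l.length < k := by omega
  have h2 := rc_nbr (g, (⟨l, hl.le⟩ : Bl q k)) (some i)
  have h3 : nbr (g, (⟨l, hl.le⟩ : Bl q k)) (some i) = (gen (⟨l, hl⟩, i) * g, ⟨l, hl.le⟩) :=
    nbr_ge hn i
  rw [h3] at h2
  exact h1.trans (h2.trans (rc_root _ l hl.le))

theorem rc_one (g : Gp q k) :
    Rc ((1 : Gp q k), (⟨[], Nat.zero_le _⟩ : Bl q k)) (g, ⟨[], Nat.zero_le _⟩) := by
  induction g using Monoid.CoprodI.induction_left with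
  | one => exact Relation.ReflTransGen.refl
  | mul m x ih =>
    rename_i s
    by_cases hm : m = 1
    · rw [hm, map_one, one_mul]
      exact ih
    · have : m = tw := eq_tw hm
      subst this
      exact ih.trans (rc_gen s x)

theorem connected (x y : Vt q k) : Rc x y := by
  obtain ⟨g, ⟨u, hu⟩⟩ := x
  obtain ⟨g', ⟨u', hu'⟩⟩ := y
  exact ((rc_root g u hu).trans (rc_one g).symm).trans ((rc_one g').trans (rc_root g' u' hu').symm)

theorem regular : IsRegular (q + 1) (am (q := q) (k := k)) :=
  ⟨am_symm, am_degree, connected⟩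

/-! ### the group acts by automorphisms -/

/-- right translation -/
def rt (h : Gp q k) : Equiv.Perm (Vt q k) where
  toFun x := (x.1 * h, x.2)
  invFun x := (x.1 * h⁻¹, x.2)
  left_inv x := by simp
  right_inv x := by simp

theorem nbr_rt (h : Gp q k) (x : Vt q k) (e : Option (Fin q)) : nbr (rt h x) e = rt h (nbr x e) := by
  obtain ⟨g, u⟩ := x
  cases e with
  | none => rfl
  | some i =>
    by_cases hu : u.1.length < k
    · show nbr (g * h, u) (some i) = _
      rw [nbr_lt hu, nbr_lt hu]
      rfl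
    · show nbr (g * h, u) (some i) = _
      rw [nbr_ge hu, nbr_ge hu, ← mul_assoc]
      rfl

theorem am_rt (h : Gp q k) (x y : Vt q k) : am (rt h x) (rt h y) = am x y := by
  unfold am
  congr 1
  ext e
  simp only [Finset.mem_filter, Finset.mem_univ, true_and]
  rw [nbr_rt]
  exact (rt h).injective.eq_iff

/-- the mass transport identity -/
theorem transport (F : Vt q k → Vt q k → ℝ≥0∞) (hF : ∀ h x y, F (rt h x) (rt h y) = F x y) :
    ∑' u : Bl q k, ∑' x, F (1, u) x = ∑' u : Bl q k, ∑' x, F x (1, u) := by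
  have h1 : ∀ u : Bl q k, ∑' x, F (1, u) x = ∑' (v : Bl q k) (g : Gp q k), F (g, u) (1, v) := by
    intro u
    rw [ENNReal.tsum_prod', ENNReal.tsum_comm]
    refine tsum_congr fun v => ?_
    have h2 : ∀ g : Gp q k, F (1, u) (g, v) = F ((Equiv.inv (Gp q k)) g, u) (1, v) := by
      intro g
      rw [← hF g⁻¹ (1, u) (g, v)]
      simp [rt]
    simp_rw [h2]
    exact (Equiv.inv (Gp q k)).tsum_eq fun g => F (g, u) (1, v)
  simp_rw [h1]
  rw [ENNReal.tsum_comm]
  refine tsum_congr fun v => ?_
  rw [ENNReal.tsum_prod', ENNReal.tsum_comm]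

end Pool.Agent.Q220.Loop
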