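import Pool.Agent.Q220.Loop.Graph

/-!
A positive supersolution.
-/

set_option autoImplicit false

namespace Pool.Agent.Q220.Loop

open MeasureTheory Filter
open scoped ENNReal

variable {q k : ℕ}

/-- reduced word -/
def wd (g : Gp q k) : List (Σ s : Ix q k, Mz q k s) := (Monoid.CoprodI.Word.equiv g).toList

theorem word_step (s : Ix q k) (w : Monoid.CoprodI.Word (Mz q k)) :
    ((Monoid.CoprodI.of (M := Mz q k) (i := s) tw • w).toList = ⟨s, tw⟩ :: w.toList ∧
      w.fstIdx ≠ some s) ∨
    (w.toList = ⟨s, tw⟩ :: (Monoid.CoprodI.of (M := Mz q k) (i := s) tw • w).toList) := by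
  by_cases h : w.fstIdx = some s
  · right
    induction w using Monoid.CoprodI.Word.consRecOn with
    | empty => simp [Monoid.CoprodI.Word.fstIdx] at h
    | cons i m w h1 h2 _ =>
      rw [Monoid.CoprodI.Word.fstIdx_cons, Option.some.injEq] at h
      subst h
      have hm : m = tw := eq_tw h2
      subst hm
      rw [Monoid.CoprodI.Word.cons_eq_smul, ← mul_smul, ← map_mul, tw_mul, map_one, one_smul,
        ← Monoid.CoprodI.Word.cons_eq_smul (h1 := h1) (h2 := h2)]
      rfl
  · left
    refine ⟨?_, h⟩
    rw [← Monoid.CoprodI.Word.cons_eq_smul (h1 := h) (h2 := tw_ne)]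
    rfl

theorem wd_gen (s : Ix q k) (g : Gp q k) :
    (wd (gen s * g) = ⟨s, tw⟩ :: wd g ∧ (wd g).head?.map Sigma.fst ≠ some s) ∨
      wd g = ⟨s, tw⟩ :: wd (gen s * g) := by
  have h1 : Monoid.CoprodI.Word.equiv (gen s * g) =
      Monoid.CoprodI.of (M := Mz q k) (i := s) tw • Monoid.CoprodI.Word.equiv g := by
    show (gen s * g) • (Monoid.CoprodI.Word.empty : Monoid.CoprodI.Word (Mz q k)) = _
    rw [mul_smul]
    rfl
  have h2 := word_step s (Monoid.CoprodI.Word.equiv g)
  unfold wd
  rw [h1]
  exact h2

theorem wd_one : wd (1 : Gp q k) = [] := by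
  show ((1 : Gp q k) • (Monoid.CoprodI.Word.empty : Monoid.CoprodI.Word (Mz q k))).toList = []
  rw [one_smul]
  rfl

/-! ### the function -/

open Classical in
/-- length of the longest common suffix of `u` and `l` (for `u` not longer than `l`) -/
noncomputable def cs : List (Fin q) → List (Fin q) → ℕ
  | [], _ => 0
  | i :: u, l => if (i :: u) <:+ l then u.length + 1 else cs u l

/-- `1 + √q q^c` -/
noncomputable def Zf (q c : ℕ) : ℝ := 1 + √q * (q : ℝ) ^ c

/-- the part of the function which depends on the position in the ball -/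
noncomputable def fB (t : Option (List (Fin q))) (u : List (Fin q)) : ℝ :=
  (√q)⁻¹ ^ u.length * (match t with | none => 1 | some l => Zf q (cs u l))

/-- the leaf through which the ball was entered -/
def tg : List (Σ s : Ix q k, Mz q k s) → Option (List (Fin q))
  | [] => none
  | x :: _ => some x.1.1.1

/-- the factor of the ball -/
noncomputable def Kf : List (Σ s : Ix q k, Mz q k s) → ℝ
  | [] => 1
  | x :: l => Kf l * fB (tg l) x.1.1.1 / (√q * fB (some x.1.1.1) x.1.1.1)

/-- the function -/
noncomputable def fV (x : Vt q k) : ℝ := Kf (wd x.1) * fB (tg (wd x.1)) x.2.1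

theorem Zf_pos (q c : ℕ) : 0 < Zf q c := by unfold Zf; positivity

theorem fB_pos (hq : 0 < q) (t : Option (List (Fin q))) (u : List (Fin q)) : 0 < fB t u := by
  have : 0 < √(q : ℝ) := Real.sqrt_pos.2 (by exact_mod_cast hq)
  unfold fB
  cases t with
  | none => positivity
  | some l => have := Zf_pos q (cs u l); positivity

theorem Kf_pos (hq : 0 < q) (l : List (Σ s : Ix q k, Mz q k s)) : 0 < Kf l := by
  have : 0 < √(q : ℝ) := Real.sqrt_pos.2 (by exact_mod_cast hq)
  induction l with
  | nil => exact one_pos
  | cons x l ih =>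
    unfold Kf
    have h1 := fB_pos hq (tg l) x.1.1.1
    have h2 := fB_pos hq (some x.1.1.1) x.1.1.1
    positivity

theorem fV_pos (hq : 0 < q) (x : Vt q k) : 0 < fV x :=
  mul_pos (Kf_pos hq _) (fB_pos hq _ _)

theorem cs_suffix {u l : List (Fin q)} (h : u <:+ l) : cs u l = u.length := by
  cases u with
  | nil => rfl
  | cons i u =>
    unfold cs
    rw [if_pos h, List.length_cons]

theorem cs_not {i : Fin q} {u l : List (Fin q)} (h : ¬ (i :: u) <:+ l) : cs (i :: u) l = cs u l := by
  rw [cs, if_neg h]

/-- the equation inside a ball -/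
theorem interior (hq : 2 ≤ q) {t : Option (List (Fin q))} {u : List (Fin q)}
    (ht : ∀ l, t = some l → u.length < l.length) :
    fB t u.tail + ∑ i, fB t (i :: u) ≤ 2 * √q * fB t u := by
  have hq0 : (0 : ℝ) < q := by exact_mod_cast (show 0 < q by omega)
  have hq2 : (2 : ℝ) ≤ q := by exact_mod_cast hq
  have hs : 0 < √(q : ℝ) := Real.sqrt_pos.2 hq0
  have hss : √(q : ℝ) * √(q : ℝ) = q := Real.mul_self_sqrt hq0.le
  have hs1 : 1 ≤ √(q : ℝ) := by
    rw [Real.one_le_sqrt]
    linarith
  set s := √(q : ℝ) with hsdef
  have hinv : s⁻¹ * q = s := by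
    rw [← hss]
    field_simp
  cases t with
  | none =>
    simp only [fB, mul_one, List.length_cons, Finset.sum_const, Finset.card_univ, Fintype.card_fin,
      nsmul_eq_mul]
    rw [← hsdef]
    cases u with
    | nil =>
      simp only [List.tail_nil, List.length_nil, pow_zero, zero_add, pow_one]
      have : (q : ℝ) * s⁻¹ = s := by rw [mul_comm]; exact hinv
      linarith
    | cons j u =>
      simp only [List.tail_cons, List.length_cons, pow_succ]
      have e1 : s⁻¹ ^ u.length = s * (s⁻¹ ^ u.length * s⁻¹) := by field_simp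
      have e2 : (q : ℝ) * (s⁻¹ ^ u.length * s⁻¹ * s⁻¹) = s * (s⁻¹ ^ u.length * s⁻¹) := by
        rw [← hss]
        field_simp
      rw [e2]
      nlinarith [e1]
  | some l =>
    have hul := ht l rfl
    simp only [fB, List.length_cons]
    rw [← hsdef, ← Finset.mul_sum]
    by_cases hsuf : u <:+ l
    · obtain ⟨p, hp⟩ := hsuf
      have hpne : p ≠ [] := by
        intro h
        rw [h, List.nil_append] at hp
        rw [hp] at hul
        exact lt_irrefl _ hul
      set i0 := p.getLast hpne with hi0
      have hi : ∀ i, (i :: u) <:+ l ↔ i = i0 := by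
        intro i
        constructor
        · intro h
          have h1 : (i0 :: u) <:+ l := ⟨p.dropLast, by
            rw [← hp, hi0]
            conv_rhs => rw [← List.dropLast_append_getLast hpne]
            simp⟩
          have h2 := List.suffix_of_suffix_length_le h h1 (by simp)
          have h3 := h2.eq_of_length (by simp)
          rw [List.cons.injEq] at h3
          exact h3.1
        · rintro rfl
          exact ⟨p.dropLast, by
            rw [← hp, hi0]
            conv_rhs => rw [← List.dropLast_append_getLast hpne]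
            simp⟩
      have hcu : cs u l = u.length := cs_suffix ⟨p, hp⟩
      have hci : ∀ i, Zf q (cs (i :: u) l) =
          Zf q u.length + if i = i0 then (Zf q (u.length + 1) - Zf q u.length) else 0 := by
        intro i
        by_cases h : i = i0
        · rw [if_pos h, cs_suffix ((hi i).2 h), List.length_cons]
          ring
        · rw [if_neg h, cs_not (fun h' => h ((hi i).1 h')), hcu, add_zero]
      have hsum : ∑ i, Zf q (cs (i :: u) l) =
          q * Zf q u.length + (Zf q (u.length + 1) - Zf q u.length) := by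
        simp_rw [hci]
        rw [Finset.sum_add_distrib, Finset.sum_ite_eq' Finset.univ i0]
        simp
      rw [hsum, hcu]
      cases u with
      | nil =>
        simp only [List.tail_nil, List.length_nil, pow_zero, zero_add, pow_one, cs, one_mul, Zf,
          mul_one]
        rw [← hsdef]
        have e1 : s⁻¹ * (q * (1 + s) + (1 + s * q - (1 + s))) = (s⁻¹ * q) * (1 + s) + s * s⁻¹ * (q - 1) := by
          ring
        rw [e1, hinv, mul_inv_cancel₀ hs.ne']
        nlinarith
      | cons j u =>
        have hu' : u <:+ l := ⟨p ++ [j], by rw [← hp]; simp⟩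
        rw [List.tail_cons, cs_suffix hu']
        simp only [List.length_cons, Zf]
        rw [← hsdef]
        have e1 : s⁻¹ ^ u.length * (1 + s * (q : ℝ) ^ u.length) + s⁻¹ ^ (u.length + 1 + 1) *
            (q * (1 + s * (q : ℝ) ^ (u.length + 1)) + (1 + s * (q : ℝ) ^ (u.length + 1 + 1) -
              (1 + s * (q : ℝ) ^ (u.length + 1)))) =
            s⁻¹ ^ u.length * ((1 + s * (q : ℝ) ^ u.length) + s⁻¹ * s⁻¹ *
            (q * (1 + s * q * (q : ℝ) ^ (u.length)) + (s * q * q * (q : ℝ) ^ (u.length) -
              (s * q * (q : ℝ) ^ (u.length))))) := by ring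
        have e2 : 2 * s * (s⁻¹ ^ (u.length + 1) * (1 + s * (q : ℝ) ^ (u.length + 1))) =
            s⁻¹ ^ u.length * (2 * (s * s⁻¹) * (1 + s * q * (q : ℝ) ^ u.length)) := by ring
        rw [e1, e2, mul_inv_cancel₀ hs.ne']
        have e3 : s⁻¹ * s⁻¹ * (q * (1 + s * q * (q : ℝ) ^ (u.length)) +
            (s * q * q * (q : ℝ) ^ (u.length) - (s * q * (q : ℝ) ^ (u.length)))) =
            (s⁻¹ * q * s⁻¹) * ((1 + s * q * (q : ℝ) ^ (u.length)) +
            (s * q * (q : ℝ) ^ (u.length) - s * (q : ℝ) ^ (u.length))) := by ring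
        rw [e3, hinv, mul_inv_cancel₀ hs.ne']
        apply le_of_eq
        ring
    · have hcu : ∀ i, cs (i :: u) l = cs u l := fun i =>
        cs_not (fun h => hsuf ((List.suffix_cons i u).trans h))
      simp_rw [hcu]
      rw [Finset.sum_const, Finset.card_univ, Fintype.card_fin, nsmul_eq_mul]
      cases u with
      | nil => exact absurd (List.nil_suffix) hsuf
      | cons j u =>
        rw [List.tail_cons, cs_not hsuf]
        simp only [List.length_cons]
        have e1 : s⁻¹ ^ u.length * Zf q (cs u l) + s⁻¹ ^ (u.length + 1 + 1) * (q * Zf q (cs u l)) =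
            s⁻¹ ^ u.length * (1 + s⁻¹ * q * s⁻¹) * Zf q (cs u l) := by ring
        have e2 : 2 * s * (s⁻¹ ^ (u.length + 1) * Zf q (cs u l)) =
            s⁻¹ ^ u.length * (2 * (s * s⁻¹)) * Zf q (cs u l) := by ring
        rw [e1, e2, hinv, mul_inv_cancel₀ hs.ne']
        apply le_of_eq
        ring

end Pool.Agent.Q220.Loop
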